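import Pool.Agent.N658.TP.Stm
import Pool.Agent.Y155.PE.Cut

/-! # Project TP: norm and expectations of the block mixture -/

open scoped BigOperators ComplexConjugate Classical

noncomputable section

namespace Pool.Agent.N814.TP

open Pool.Agent.Y738.PE Pool.Agent.N658.TP Pool.Agent.Y155.PE

section

variable {d m : ℕ} [NeZero m]

theorem code_le (i : ℕ) (p : Site (m + 1)) : code i p ≤ 1 := by
  unfold code
  split_ifs <;> omega

/-- the configuration with code `i` -/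
def emb (hd : 2 ≤ d) (i : ℕ) (t : Conf d m) : Conf d (m + 1) := fun p =>
  if inn p then t (red p) else ⟨code i p, lt_of_le_of_lt (code_le i p) (by omega)⟩

theorem inn_lft (q : Site m) : inn (lft q) := by
  have h1 := ZMod.val_lt q.1
  have h2 := ZMod.val_lt q.2
  refine ⟨?_, ?_⟩
  · show (((q.1.val : ℕ) : ZMod (m + 1))).val < m
    rw [ZMod.val_natCast_of_lt (by omega)]
    exact h1
  · show (((q.2.val : ℕ) : ZMod (m + 1))).val < m
    rw [ZMod.val_natCast_of_lt (by omega)]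
    exact h2

theorem red_lft (q : Site m) : red (lft q) = q := by
  have h1 := ZMod.val_lt q.1
  have h2 := ZMod.val_lt q.2
  have e1 : (lft q).1.val = q.1.val := by
    show (((q.1.val : ℕ) : ZMod (m + 1))).val = _
    rw [ZMod.val_natCast_of_lt (by omega)]
  have e2 : (lft q).2.val = q.2.val := by
    show (((q.2.val : ℕ) : ZMod (m + 1))).val = _
    rw [ZMod.val_natCast_of_lt (by omega)]
  unfold red
  rw [e1, e2, ZMod.natCast_zmod_val, ZMod.natCast_zmod_val]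

theorem lft_red {p : Site (m + 1)} (h : inn p) : lft (red p) = p := by
  have e1 : (red p).1.val = p.1.val := ZMod.val_natCast_of_lt h.1
  have e2 : (red p).2.val = p.2.val := ZMod.val_natCast_of_lt h.2
  unfold lft
  rw [e1, e2, ZMod.natCast_zmod_val, ZMod.natCast_zmod_val]

theorem emb_lft (hd : 2 ≤ d) (i : ℕ) (t : Conf d m) :
    (fun q : Site m => emb hd i t (lft q)) = t := by
  funext q
  unfold emb
  rw [if_pos (inn_lft q), red_lft]

theorem emb_code (hd : 2 ≤ d) (i : ℕ) (t : Conf d m) (p : Site (m + 1)) (h : ¬ inn p) :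
    (emb hd i t p : ℕ) = code i p := by
  unfold emb
  rw [if_neg h]

theorem eq_emb (hd : 2 ≤ d) (i : ℕ) (s : Conf d (m + 1))
    (h : ∀ p : Site (m + 1), ¬ inn p → (s p : ℕ) = code i p) :
    emb hd i (fun q : Site m => s (lft q)) = s := by
  funext p
  by_cases hp : inn p
  · unfold emb
    rw [if_pos hp]
    show s (lft (red p)) = s p
    rw [lft_red hp]
  · apply Fin.ext
    rw [emb_code hd i _ p hp, h p hp]

/-- the site that distinguishes the codes -/
def site (m i : ℕ) : Site (m + 1) := (((i : ℕ) : ZMod (m + 1)), ((m : ℕ) : ZMod (m + 1)))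

theorem site_val {i : ℕ} (h : i < m + 1) : (site m i).1.val = i ∧ (site m i).2.val = m :=
  ⟨ZMod.val_natCast_of_lt h, ZMod.val_natCast_of_lt (by omega)⟩

theorem code_ne {i j : ℕ} (hi : i < m) (hij : i ≠ j) (s : Conf d (m + 1))
    (h1 : ∀ p : Site (m + 1), ¬ inn p → (s p : ℕ) = code i p)
    (h2 : ∀ p : Site (m + 1), ¬ inn p → (s p : ℕ) = code j p) : False := by
  have hv := site_val (m := m) (i := i) (by omega)
  have hn : ¬ inn (site m i) := by
    rintro ⟨_, h⟩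
    rw [hv.2] at h
    exact lt_irrefl _ h
  have e1 := h1 _ hn
  rw [h2 _ hn] at e1
  unfold code at e1
  rw [if_neg (by rintro ⟨h, _⟩; rw [hv.1] at h; exact hij h), if_pos hv] at e1
  omega

variable {K : ℕ} {κ : Type} [Fintype κ]

theorem mixV_emb (hd : 2 ≤ d) (hK : K ≤ m) (w : Fin K → ℂ)
    (C : Fin K → Site m → Fin d → κ → κ → κ → κ → ℂ) (i : Fin K) (t : Conf d m) :
    mixV w C (emb hd (i : ℕ) t) = w i * pepsN (C i) t := by
  unfold mixV
  rw [Finset.sum_eq_single i]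
  · rw [if_pos (fun p hp => emb_code hd i t p hp)]
    congr 1
    rw [emb_lft]
  · intro j _ hj
    rw [if_neg, mul_zero]
    intro h
    have hij : (i : ℕ) ≠ (j : ℕ) := fun e => hj (Fin.ext e.symm)
    exact code_ne (lt_of_lt_of_le i.2 hK) hij _ (fun p hp => emb_code hd i t p hp) h
  · intro h
    exact absurd (Finset.mem_univ _) h

/-- all the configurations that carry a code -/
def big (K : ℕ) (hd : 2 ≤ d) (x : Fin K × Conf d m) : Conf d (m + 1) := emb hd (x.1 : ℕ) x.2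

theorem big_inj (hd : 2 ≤ d) (hK : K ≤ m) :
    Function.Injective (big (d := d) (m := m) K hd) := by
  rintro ⟨i, t⟩ ⟨j, t'⟩ h
  have h' : emb hd (i : ℕ) t = emb hd (j : ℕ) t' := h
  have hij : i = j := by
    by_contra hne
    have hij : (i : ℕ) ≠ (j : ℕ) := fun e => hne (Fin.ext e)
    refine code_ne (lt_of_lt_of_le i.2 hK) hij _ (fun p hp => emb_code hd i t p hp) ?_
    intro p hp
    rw [h']
    exact emb_code hd j t' p hp
  subst hij
  have : t = t' := by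
    rw [← emb_lft hd (i : ℕ) t, ← emb_lft hd (i : ℕ) t', h']
  rw [this]

theorem mixV_off (hd : 2 ≤ d) (w : Fin K → ℂ)
    (C : Fin K → Site m → Fin d → κ → κ → κ → κ → ℂ) (s : Conf d (m + 1))
    (hs : s ∉ Set.range (big (d := d) (m := m) K hd)) : mixV w C s = 0 := by
  unfold mixV
  refine Finset.sum_eq_zero fun i _ => ?_
  rw [if_neg, mul_zero]
  intro h
  exact hs ⟨(i, fun q : Site m => s (lft q)), eq_emb hd i s h⟩

theorem nrm_mixV (hd : 2 ≤ d) (hK : K ≤ m) (w : Fin K → ℂ)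
    (C : Fin K → Site m → Fin d → κ → κ → κ → κ → ℂ) :
    nrm (mixV w C) = ∑ i, ‖w i‖ ^ 2 * nrm (pepsN (C i)) := by
  have h1 : nrm (mixV w C) =
      ∑ x : Fin K × Conf d m, ‖w x.1‖ ^ 2 * ‖pepsN (C x.1) x.2‖ ^ 2 := by
    unfold nrm
    symm
    refine Fintype.sum_of_injective (big K hd) (big_inj hd hK) _ _ ?_ ?_
    · intro s hs
      rw [mixV_off hd w C s hs]
      simp
    · rintro ⟨i, t⟩
      show _ = ‖mixV w C (emb hd (i : ℕ) t)‖ ^ 2
      rw [mixV_emb hd hK, norm_mul, mul_pow]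
  rw [h1, Fintype.sum_prod_type]
  refine Finset.sum_congr rfl fun i _ => ?_
  unfold nrm
  rw [Finset.mul_sum]

theorem box_emb (hd : 2 ≤ d) (i : ℕ) (t : Conf d m) {r : ℕ} (p : ℕ × ℕ)
    (h : p.1 + r ≤ m ∧ p.2 + r ≤ m) :
    box r (emb hd i t) (((p.1 : ℕ) : ZMod (m + 1)), ((p.2 : ℕ) : ZMod (m + 1))) =
      box r t (((p.1 : ℕ) : ZMod m), ((p.2 : ℕ) : ZMod m)) := by
  funext q
  have hq1 := q.1.2
  have hq2 := q.2.2
  have h1 := val1 (m := m + 1) (a := p.1) (b := q.1) (by omega)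
  have h2 := val1 (m := m + 1) (a := p.2) (b := q.2) (by omega)
  unfold box emb
  have hin : inn (m := m) (((p.1 : ℕ) : ZMod (m + 1)) + (((q.1 : Fin r) : ℕ) : ZMod (m + 1)),
      ((p.2 : ℕ) : ZMod (m + 1)) + (((q.2 : Fin r) : ℕ) : ZMod (m + 1))) := by
    refine ⟨?_, ?_⟩
    · show (((p.1 : ℕ) : ZMod (m + 1)) + (((q.1 : Fin r) : ℕ) : ZMod (m + 1))).val < m
      rw [h1]
      omega
    · show (((p.2 : ℕ) : ZMod (m + 1)) + (((q.2 : Fin r) : ℕ) : ZMod (m + 1))).val < m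
      rw [h2]
      omega
  rw [if_pos hin]
  unfold red
  congr 1
  refine Prod.ext ?_ ?_
  · show ((((((p.1 : ℕ) : ZMod (m + 1)) + (((q.1 : Fin r) : ℕ) : ZMod (m + 1))).val : ℕ)) : ZMod m) =
      ((p.1 : ℕ) : ZMod m) + (((q.1 : Fin r) : ℕ) : ZMod m)
    rw [h1, Nat.cast_add]
  · show ((((((p.2 : ℕ) : ZMod (m + 1)) + (((q.2 : Fin r) : ℕ) : ZMod (m + 1))).val : ℕ)) : ZMod m) =
      ((p.2 : ℕ) : ZMod m) + (((q.2 : Fin r) : ℕ) : ZMod m)
    rw [h2, Nat.cast_add]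

theorem put_emb (hd : 2 ≤ d) (i : ℕ) (t : Conf d m) {r : ℕ} (p : ℕ × ℕ)
    (h : p.1 + r ≤ m ∧ p.2 + r ≤ m) (τ : BConf d r) :
    put (emb hd i t) (((p.1 : ℕ) : ZMod (m + 1)), ((p.2 : ℕ) : ZMod (m + 1))) τ =
      emb hd i (put t (((p.1 : ℕ) : ZMod m), ((p.2 : ℕ) : ZMod m)) τ) := by
  funext w
  have i1 := val4 (m := m + 1) (a := p.1) (r := r) (by omega) w.1
  have i2 := val4 (m := m + 1) (a := p.2) (r := r) (by omega) w.2
  by_cases hw : inn w
  · have e1 : (red w).1.val = w.1.val := ZMod.val_natCast_of_lt hw.1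
    have e2 : (red w).2.val = w.2.val := ZMod.val_natCast_of_lt hw.2
    have k1 := val4 h.1 (red w).1
    have k2 := val4 h.2 (red w).2
    rw [e1] at k1
    rw [e2] at k2
    by_cases hc : (w.1 - ((p.1 : ℕ) : ZMod (m + 1))).val < r ∧
        (w.2 - ((p.2 : ℕ) : ZMod (m + 1))).val < r
    · have hc1 := i1.1 hc.1
      have hc2 := i2.1 hc.2
      have hc' : ((red w).1 - ((p.1 : ℕ) : ZMod m)).val < r ∧
          ((red w).2 - ((p.2 : ℕ) : ZMod m)).val < r := ⟨k1.2 hc1, k2.2 hc2⟩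
      have j1 := val3 (m := m + 1) (a := p.1) (r := r) (by omega) w.1 hc1.1 hc1.2
      have j2 := val3 (m := m + 1) (a := p.2) (r := r) (by omega) w.2 hc2.1 hc2.2
      have l1 := val3 h.1 (red w).1 (by rw [e1]; exact hc1.1) (by rw [e1]; exact hc1.2)
      have l2 := val3 h.2 (red w).2 (by rw [e2]; exact hc2.1) (by rw [e2]; exact hc2.2)
      rw [e1] at l1
      rw [e2] at l2
      simp only [put, emb]
      rw [dif_pos hc, if_pos hw, dif_pos hc']
      congr 1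
      refine Prod.ext ?_ ?_
      · apply Fin.ext
        show (w.1 - ((p.1 : ℕ) : ZMod (m + 1))).val = ((red w).1 - ((p.1 : ℕ) : ZMod m)).val
        rw [j1, l1]
      · apply Fin.ext
        show (w.2 - ((p.2 : ℕ) : ZMod (m + 1))).val = ((red w).2 - ((p.2 : ℕ) : ZMod m)).val
        rw [j2, l2]
    · have hc' : ¬ (((red w).1 - ((p.1 : ℕ) : ZMod m)).val < r ∧
          ((red w).2 - ((p.2 : ℕ) : ZMod m)).val < r) := fun hcc =>
        hc ⟨i1.2 (k1.1 hcc.1), i2.2 (k2.1 hcc.2)⟩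
      simp only [put, emb]
      rw [dif_neg hc, if_pos hw, if_pos hw, dif_neg hc']
  · have hc : ¬ ((w.1 - ((p.1 : ℕ) : ZMod (m + 1))).val < r ∧
        (w.2 - ((p.2 : ℕ) : ZMod (m + 1))).val < r) := by
      intro hcc
      have g1 := (i1.1 hcc.1).2
      have g2 := (i2.1 hcc.2).2
      exact hw ⟨by omega, by omega⟩
    simp only [put, emb]
    rw [dif_neg hc, if_neg hw, if_neg hw]

theorem expec_mixV (hd : 2 ≤ d) (hK : K ≤ m) (w : Fin K → ℂ)
    (C : Fin K → Site m → Fin d → κ → κ → κ → κ → ℂ) {r : ℕ} (p : ℕ × ℕ)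
    (h : p.1 + r ≤ m ∧ p.2 + r ≤ m) (B : BConf d r → BConf d r → ℂ) :
    expec (mixV w C) (((p.1 : ℕ) : ZMod (m + 1)), ((p.2 : ℕ) : ZMod (m + 1))) B =
      ∑ i, ((‖w i‖ ^ 2 : ℝ) : ℂ) *
        expec (pepsN (C i)) (((p.1 : ℕ) : ZMod m), ((p.2 : ℕ) : ZMod m)) B := by
  have h1 : expec (mixV w C) (((p.1 : ℕ) : ZMod (m + 1)), ((p.2 : ℕ) : ZMod (m + 1))) B =
      ∑ x : Fin K × Conf d m, ((‖w x.1‖ ^ 2 : ℝ) : ℂ) * ∑ τ : BConf d r,
        conj (pepsN (C x.1) x.2) * B (box r x.2 (((p.1 : ℕ) : ZMod m), ((p.2 : ℕ) : ZMod m))) τ *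
          pepsN (C x.1) (put x.2 (((p.1 : ℕ) : ZMod m), ((p.2 : ℕ) : ZMod m)) τ) := by
    unfold expec
    symm
    refine Fintype.sum_of_injective (big K hd) (big_inj hd hK) _ _ ?_ ?_
    · intro s hs
      refine Finset.sum_eq_zero fun τ _ => ?_
      rw [mixV_off hd w C s hs]
      simp
    · rintro ⟨i, t⟩
      show ((‖w i‖ ^ 2 : ℝ) : ℂ) * _ = ∑ τ : BConf d r,
        conj (mixV w C (emb hd (i : ℕ) t)) *
          B (box r (emb hd (i : ℕ) t) (((p.1 : ℕ) : ZMod (m + 1)), ((p.2 : ℕ) : ZMod (m + 1)))) τ *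
          mixV w C (put (emb hd (i : ℕ) t)
            (((p.1 : ℕ) : ZMod (m + 1)), ((p.2 : ℕ) : ZMod (m + 1))) τ)
      rw [Finset.mul_sum]
      refine Finset.sum_congr rfl fun τ _ => ?_
      rw [box_emb hd i t p h, put_emb hd i t p h, mixV_emb hd hK, mixV_emb hd hK, map_mul]
      have e : ((‖w i‖ ^ 2 : ℝ) : ℂ) = conj (w i) * w i := by
        rw [mul_comm, Complex.mul_conj, Complex.normSq_eq_norm_sq]
      rw [e]
      ring
  rw [h1, Fintype.sum_prod_type]
  refine Finset.sum_congr rfl fun i _ => ?_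
  unfold expec
  rw [Finset.mul_sum]

end

/-- **P4.** -/
theorem mixExp : StmMixExp := by
  intro d m K r _ κ _ w C hd hK hr
  refine ⟨?_, ?_⟩
  · rw [(cut d (m + 1) 0 (mixV w C) (0, 0) ⟨by omega, by omega⟩ (fun _ _ => 0)).1]
    exact nrm_mixV hd hK w C
  · intro p h h' B
    rw [(cut d (m + 1) r (mixV w C) p h' B).2 hr]
    exact expec_mixV hd hK w C p h B

end Pool.Agent.N814.TP
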